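import Pool.Agent.W_332fe5.P.Fin

set_option autoImplicit false

/-!
Negative answer to Q1 of MP_332fe5_pr: for every `θ ∈ (0, 1/4)` there are a smooth bounded domain
(a ball), `ν`, parabolic coefficients `b` which are Hölder continuous exactly with the exponents
`α ≤ θ`, and `g`, such that for every critical tuple `(p, κ, δ, q)` with `b ∈ C^α` for some
`α > -δ`, on every stochastic basis, local well-posedness fails.
-/

open MeasureTheory Set
open scoped ENNReal NNReal

namespace Pool.Agent.Results.MP_332fe5_pr.NoSlipIllPosed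

open Pool.Agent.W_332fe5.Pub

theorem result : ∀ θ : ℝ, 0 < θ → θ < 1 / 4 →
    ∃ (O : Set E3) (ν : ℝ) (b : ℕ → E3 → E3) (g : ℕ → E3 → E3 → E3),
      SmoothDomain O ∧ 0 < ν ∧ Coeffs O ν b g ∧
      (∀ α : ℝ, 0 < α → α ≤ 1 → (HolderB O α b ↔ α ≤ θ)) ∧
      ∀ p κ δ q : ℝ, Critical p κ δ q →
        (∃ α : ℝ, -δ < α ∧ 0 < α ∧ α ≤ 1 ∧ HolderB O α b) →
        ∀ (Ω : Type) (_ : MeasurableSpace Ω) (B : Basis Ω), ¬ LWP B O ν b g p κ δ q :=
  statA

end Pool.Agent.Results.MP_332fe5_pr.NoSlipIllPosed
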