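import Pool.Agent.W_332fe5.P.Fin

set_option autoImplicit false

/-!
Failure of local well-posedness with a single smooth (linear) transport field: for every
`δ₀ ∈ (-1/4, 0]` there are a smooth bounded domain (a ball), `ν`, `b₀ = c x`, `g₀ = c y` and all
other `bₙ`, `gₙ` zero, parabolic, such that local well-posedness fails for every critical tuple
with `δ ≥ δ₀`, on every stochastic basis.
-/

open MeasureTheory Set
open scoped ENNReal NNReal

namespace Pool.Agent.Results.MP_332fe5_pr.SmoothNoiseIllPosed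

open Pool.Agent.W_332fe5.Pub

theorem result : ∀ δ₀ : ℝ, -(1 / 4) < δ₀ → δ₀ ≤ 0 →
    ∃ (O : Set E3) (ν : ℝ) (b : ℕ → E3 → E3) (g : ℕ → E3 → E3 → E3),
      SmoothDomain O ∧ 0 < ν ∧ Coeffs O ν b g ∧
      (∀ n, Smooth (b n)) ∧
      (∃ c : ℝ, (∀ x, b 0 x = c • x) ∧ ∀ x y, g 0 x y = c • y) ∧
      (∀ n, 1 ≤ n → (∀ x, b n x = 0) ∧ ∀ x y, g n x y = 0) ∧
      ∀ p κ δ q : ℝ, Critical p κ δ q → δ₀ ≤ δ →
        ∀ (Ω : Type) (_ : MeasurableSpace Ω) (B : Basis Ω), ¬ LWP B O ν b g p κ δ q :=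
  statB

end Pool.Agent.Results.MP_332fe5_pr.SmoothNoiseIllPosed
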